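import Mathlib
import Pool.Agent.H.MP_2c8f22_co.A

namespace Pool.Agent.Results.MP_2c8f22_co.Counter

open Polynomial Finset

abbrev Arr (r₁ r₂ : ℕ) := ZMod r₁ × ZMod r₂ → ZMod 2

def Gen (f : (ZMod 2)[X]) (s : ℕ → ZMod 2) : Prop :=
  ∀ n, ∑ i ∈ range (f.natDegree + 1), f.coeff i * s (n + i) = 0

def Fold {r₁ r₂ : ℕ} (s : ℕ → ZMod 2) (A : Arr r₁ r₂) : Prop := ∀ i < r₁ * r₂, A (i, i) = s i

def shift {r₁ r₂ : ℕ} (d : ZMod r₁ × ZMod r₂) (A : Arr r₁ r₂) : Arr r₁ r₂ := fun p => A (p + d)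

def window {r₁ r₂ : ℕ} (n₁ n₂ : ℕ) (A : Arr r₁ r₂) (p : ZMod r₁ × ZMod r₂) : Fin n₁ → Fin n₂ → ZMod 2 :=
  fun a b => A (p.1 + (a : ℕ), p.2 + (b : ℕ))

def IsPRAC {r₁ r₂ : ℕ} (n₁ n₂ : ℕ) (C : Set (Arr r₁ r₂)) : Prop :=
  r₁ * r₂ ∣ 2 ^ (n₁ * n₂) - 1 ∧
  (∀ M ≠ 0, ∃! q : Arr r₁ r₂ × ZMod r₁ × ZMod r₂, q.1 ∈ C ∧ window n₁ n₂ q.1 q.2 = M) ∧
  ∀ A ∈ C, ∀ B, ((B ∈ C ∧ B ≠ A) ∨ ∃ d ≠ 0, B = shift d A) → ∃ D ∈ C, ∃ d, A + B = shift d D

/-- `C` holds one folded array for each shift class of nonzero sequences generated by `f` -/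
def Folded {r₁ r₂ : ℕ} (f : (ZMod 2)[X]) (C : Set (Arr r₁ r₂)) : Prop :=
  (∀ A ∈ C, ∃ s ≠ 0, Gen f s ∧ Fold s A) ∧
  ∀ s ≠ 0, Gen f s → ∃! A, A ∈ C ∧ ∃ t, Fold (fun i => s (i + t)) A

def FoldsTo (f : (ZMod 2)[X]) (r₁ r₂ n₁ n₂ : ℕ) : Prop :=
  ∃ C : Set (Arr r₁ r₂), Folded f C ∧ IsPRAC n₁ n₂ C

def Good (f : (ZMod 2)[X]) (r₁ r₂ n₁ n₂ : ℕ) : Prop :=
  Irreducible f ∧ f.natDegree = n₁ * n₂ ∧ f.coeff 0 ≠ 0 ∧
  IsLeast {e | 1 ≤ e ∧ f ∣ X ^ e - 1} (r₁ * r₂) ∧ FoldsTo f r₁ r₂ n₁ n₂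

open Pool.Agent.H.MP_2c8f22_co

theorem gen_iff {f : (ZMod 2)[X]} {s : ℕ → (ZMod 2)} : Gen f s ↔ Kills s f :=
  forall_congr' fun n => by rw [ev_sum _ _ _ _ (Nat.lt_succ_self _)]

abbrev R := ZMod 5 × ZMod 117

theorem surj (p : R) : ∃ n : ℕ, n < 585 ∧ (n : R) = p := by
  let e := ZMod.chineseRemainder (show Nat.Coprime 5 117 by norm_num)
  refine ⟨(e.symm p).val, ZMod.val_lt _, ?_⟩
  rw [← map_natCast e, ZMod.natCast_zmod_val, RingEquiv.apply_symm_apply]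

theorem fold_iff {s : ℕ → (ZMod 2)} (h : ∀ n, s (n + 585) = s n) {A : Arr 5 117} :
    Fold s A ↔ s = fun n : ℕ => A (n : R) := by
  refine ⟨fun H => funext fun n => ?_, fun e i _ => e ▸ rfl⟩
  induction n using Nat.strong_induction_on with
  | _ n ih =>
    by_cases hn : n < 585
    · exact (H n hn).symm
    · obtain ⟨m, rfl⟩ : ∃ m, n = m + 585 := ⟨n - 585, by omega⟩
      rw [h, ih m (by omega), Nat.cast_add, show ((585 : ℕ) : R) = 0 by decide, add_zero]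

theorem arr_ext {A B : Arr 5 117} (h : (fun n : ℕ => A (n : R)) = fun n : ℕ => B (n : R)) : A = B :=
  funext fun p => by obtain ⟨n, -, rfl⟩ := surj p; exact congrFun h n

theorem exists_arr (s : ℕ → (ZMod 2)) : ∃ A : Arr 5 117, Fold s A := by
  choose g h1 h2 using surj
  refine ⟨fun p => s (g p), fun i hi => congrArg s ?_⟩
  have h := Prod.ext_iff.1 (h2 (i, i))
  have a := (ZMod.natCast_eq_natCast_iff' _ _ _).1 h.1
  have b := (ZMod.natCast_eq_natCast_iff' _ _ _).1 h.2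
  have := h1 (i, i)
  omega

def pos (a b : ℕ) : ℕ := (351 * a + 235 * b) % 585

theorem win (n₁ n₂ : ℕ) (A : Arr 5 117) (n : ℕ) (a : Fin n₁) (b : Fin n₂) :
    window n₁ n₂ A (n : R) a b = A ((n + pos a b : ℕ) : R) := by
  refine congrArg A (Prod.ext ?_ ?_)
  · change ((n : ℕ) : ZMod 5) + _ = ((n + pos a b : ℕ) : ZMod 5)
    rw [← Nat.cast_add, ZMod.natCast_eq_natCast_iff', pos]; omega
  · change ((n : ℕ) : ZMod 117) + _ = ((n + pos a b : ℕ) : ZMod 117)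
    rw [← Nat.cast_add, ZMod.natCast_eq_natCast_iff', pos]; omega

theorem shift_shift (d e : R) (A : Arr 5 117) : shift d (shift e A) = shift (d + e) A :=
  funext fun p => by simp [shift, add_assoc]

theorem win_shift (A : Arr 5 117) (p : R) : window 3 4 (shift p A) 0 = window 3 4 A p := by
  funext a b
  obtain ⟨x, y⟩ := p
  simp [window, shift, add_comm]

noncomputable def rep (A : Arr 5 117) : Arr 5 117 := Classical.epsilon fun B => ∃ d, B = shift d A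

theorem rep_spec (A : Arr 5 117) : ∃ d, rep A = shift d A :=
  Classical.epsilon_spec (p := fun B => ∃ d, B = shift d A) ⟨_, 0, rfl⟩

theorem rep_shift (d : R) (A : Arr 5 117) : rep (shift d A) = rep A := by
  unfold rep
  congr 1
  ext B
  exact ⟨fun ⟨e, h⟩ => ⟨e + d, by rw [h, shift_shift]⟩, fun ⟨e, h⟩ => ⟨e - d, by rw [h, shift_shift]; simp⟩⟩

theorem shift0 (A : Arr 5 117) : shift 0 A = A := funext fun p => by simp [shift]

theorem folds {f : (ZMod 2)[X]} (hm : f.Monic) (hd : f.natDegree = 12) (hi : Irreducible f)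
    (he : IsLeast {e | 1 ≤ e ∧ f ∣ X ^ e - 1} 585)
    (H : ∀ s, Kills s f → (∀ (a : Fin 3) (b : Fin 4), s (pos a b) = 0) → ∀ i < 12, s i = 0) :
    FoldsTo f 5 117 3 4 := by
  let G : Arr 5 117 → Prop := fun A => Kills (fun n : ℕ => A (n : R)) f
  have per : ∀ s, Kills s f → ∀ n, s (n + 585) = s n := fun s h => kills_per.1 (h.dvd he.1.2)
  have Gs : ∀ d A, G A → G (shift d A) := fun d A h => by
    obtain ⟨t, -, rfl⟩ := surj d
    refine gen_iff.1 fun n => ?_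
    have := gen_iff.2 h (n + t)
    simpa only [shift, ← Nat.cast_add, add_right_comm] using this
  have Ga : ∀ A B, G A → G B → G (A + B) := fun A B h h' => gen_iff.1 fun n => by
    simp only [Pi.add_apply, mul_add, sum_add_distrib, gen_iff.2 h n, gen_iff.2 h' n, add_zero]
  have ns : ∀ d (A : Arr 5 117), A ≠ 0 → shift d A ≠ 0 := fun d A h e =>
    h (by rw [← shift0 A, ← neg_add_cancel d, ← shift_shift, e]; rfl)
  have add0 : ∀ A B : Arr 5 117, A + B = 0 → A = B := fun A B h => CharTwo.add_eq_zero.1 h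
  have free : ∀ d A, G A → A ≠ 0 → shift d A = A → d = 0 := fun d A h h0 e => by
    obtain ⟨t, ht, rfl⟩ := surj d
    rcases Nat.eq_zero_or_pos t with rfl | h1
    · simp
    obtain ⟨u, v, huv⟩ := (hi.coprime_iff_not_dvd (n := X ^ t - 1)).2 fun hdv => by
      have := he.2 ⟨h1, hdv⟩; omega
    have k : Kills (fun n : ℕ => A (n : R)) (X ^ t - 1) :=
      kills_per.2 fun n => by rw [Nat.cast_add]; exact congrFun e n
    refine absurd (arr_ext (funext fun n => ?_)) h0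
    rw [← ev_X (fun n : ℕ => A (n : R)), ← mul_one (X ^ n), ← huv, mul_add, ← mul_assoc, ← mul_assoc,
      map_add, Kills.mul h, k.mul, add_zero]; rfl
  have inj : ∀ A B, G A → G B → window 3 4 A 0 = window 3 4 B 0 → A = B := fun A B h h' e =>
    add0 _ _ (arr_ext ((Ga A B h h').zero hm hd (H _ (Ga A B h h') fun a b => by
      have := congrFun (congrFun e a) b
      rw [← Nat.cast_zero, win, win, zero_add] at this
      exact CharTwo.add_eq_zero.2 this)))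
  have sur : ∀ M, ∃ A, G A ∧ window 3 4 A 0 = M := by
    choose s hs hv using exists_sol hm hd
    choose A hA using exists_arr
    have hG : ∀ v, G (A (s v)) := fun v => by
      have := hs v
      rwa [(fold_iff (per _ this)).1 (hA (s v))] at this
    have : Function.Bijective fun v => window 3 4 (A (s v)) 0 := by
      refine (Fintype.bijective_iff_injective_and_card _).2 ⟨fun v w e => funext fun i => ?_, by simp⟩
      rw [← hv v, ← hv w, ← hA (s v) i (by omega), ← hA (s w) i (by omega), inj _ _ (hG v) (hG w) e]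
    intro M
    obtain ⟨v, e⟩ := this.2 M
    exact ⟨_, hG v, e⟩
  have repC : ∀ A, G A → A ≠ 0 → (G (rep A) ∧ rep A ≠ 0) ∧ rep (rep A) = rep A := fun A h h0 => by
    obtain ⟨d, e⟩ := rep_spec A
    exact ⟨e ▸ ⟨Gs _ _ h, ns _ _ h0⟩, by conv_lhs => rw [e, rep_shift]⟩
  refine ⟨{A | (G A ∧ A ≠ 0) ∧ rep A = A}, ⟨fun A hA => ⟨_, fun e => hA.1.2 (arr_ext e),
    gen_iff.2 hA.1.1, fun i _ => rfl⟩, fun s h0 hs => ?_⟩, by norm_num, fun M hM => ?_, fun A hA B hB => ?_⟩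
  · obtain ⟨A, hA⟩ := exists_arr s
    have hp := per s (gen_iff.1 hs)
    obtain rfl := (fold_iff hp).1 hA
    have hf : ∀ (t : ℕ) (B : Arr 5 117), Fold (fun i => A ((i + t : ℕ) : R)) B ↔ B = shift t A :=
      fun t B => by
        rw [fold_iff fun n => by rw [add_right_comm]; exact hp _]
        exact ⟨fun e => arr_ext (by rw [← e]; simp only [shift, Nat.cast_add]),
          fun e => by simp only [e, shift, Nat.cast_add]⟩
    refine ⟨rep A, ⟨repC A (gen_iff.1 hs) (by rintro rfl; exact h0 rfl), ?_⟩, ?_⟩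
    · obtain ⟨d, e⟩ := rep_spec A
      obtain ⟨t, -, rfl⟩ := surj d
      exact ⟨t, (hf t _).2 e⟩
    · rintro B ⟨hB, t, h⟩
      rw [← hB.2, (hf t B).1 h, rep_shift]
  · obtain ⟨A, hA, e⟩ := sur M
    have h0 : A ≠ 0 := by rintro rfl; exact hM e.symm
    obtain ⟨d, hd⟩ := rep_spec A
    refine ⟨(rep A, -d), ⟨repC A hA h0, ?_⟩, ?_⟩
    · rw [← win_shift, hd, shift_shift, neg_add_cancel, shift0, e]
    · rintro ⟨B, p⟩ ⟨hB, h⟩
      have e1 : shift p B = A := inj _ _ (Gs _ _ hB.1.1) hA (by rw [win_shift, e]; exact h)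
      have e2 : B = rep A := by rw [← e1, rep_shift]; exact hB.2.symm
      have := free (d + p) B hB.1.1 hB.1.2 (by rw [← shift_shift, e1, ← hd, e2])
      exact Prod.ext e2 (eq_neg_of_add_eq_zero_right this)
  · have : G B ∧ B ≠ A := by
      rcases hB with h | ⟨d, h, rfl⟩
      · exact ⟨h.1.1.1, h.2⟩
      · exact ⟨Gs _ _ hA.1.1, fun e => h (free _ _ hA.1.1 hA.1.2 e)⟩
    obtain ⟨d, hd⟩ := rep_spec (A + B)
    exact ⟨_, repC _ (Ga _ _ hA.1.1 this.1) fun e => this.2 (add0 _ _ e).symm, -d, by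
      rw [hd, shift_shift, neg_add_cancel, shift0]⟩

def sel (m : ℕ) : List (Fin 3 × Fin 4) :=
  ((List.finRange 3).product (List.finRange 4)).filter fun p => m.testBit (4 * p.1 + p.2)

theorem good {f : ℕ} (L : List ℕ) (h1 : f < 2 ^ 13) (h2 : f.testBit 12 = true) (h3 : f.testBit 0 = true)
    (h4 : run (mY f) 4095 1 0 = (1, 2 ^ 128 - 2))
    (h6 : pw f (584 + 1) = 1) (h7 : ∀ x ∈ List.iterate (step f) (step f 1) 584, x ≠ 1 ∧ x < 2 ^ 12)
    (h8 : ∀ i < 12, (i :: (sel (L.getD i 0)).map fun p => pos p.1 p.2).foldr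
      (fun e m => pw f e ^^^ m) 0 = 0) : Good (P f) 5 117 3 4 := by
  obtain ⟨hm, hd⟩ := P_top h1 h2
  refine ⟨irr hm hd h4, hd, by simp [coeff_P, h3], expo hd h6 h7,
    folds hm hd (irr hm hd h4) (expo hd h6 h7) fun s hs h0 i hi => ?_⟩
  have := rel f (i :: (sel (L.getD i 0)).map fun p => pos p.1 p.2)
  rw [h8 i hi, P_zero, add_zero] at this
  have := (hs.dvd this).list 0
  simpa [List.map_map, Function.comp_def, h0] using this

theorem g1 : Good (P 4891) 5 117 3 4 :=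
  good [1, 32, 1024, 1555, 2639, 1768, 306, 2007, 2647, 2298, 1915, 3018] (by norm_num) (by decide)
    (by decide) (by decide +kernel) (by decide +kernel) (by decide +kernel) (by decide +kernel)

theorem g2 : Good (P 5227) 5 117 3 4 :=
  good [1, 32, 1024, 1043, 1651, 2008, 1910, 1773, 67, 2144, 1062, 211] (by norm_num) (by decide)
    (by decide) (by decide +kernel) (by decide +kernel) (by decide +kernel) (by decide +kernel)

def T : List (Fin 3 × Fin (2 * 4)) :=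
  [(0, 0), (0, 1), (0, 2), (0, 5), (0, 7), (1, 2), (1, 3), (1, 4), (1, 5), (1, 6), (2, 0), (2, 4), (2, 5)]

theorem neg {a b : ℕ} (h1 : Good (P a) 5 117 3 4) (h2 : Good (P b) 5 117 3 4) (n0 : a ^^^ b ≠ 0)
    (n1 : a ^^^ b < 2 ^ 12)
    (t1 : (T.map fun p => pos p.1 p.2).foldr (fun e m => pw a e ^^^ m) 0 = 0)
    (t2 : (T.map fun p => pos p.1 p.2).foldr (fun e m => pw b e ^^^ m) 0 = 0) :
    P a ≠ P b ∧ ¬ FoldsTo (P a * P b) 5 117 3 (2 * 4) := by
  have hn : ¬ P a ∣ P b := fun h => nd h1.2.1 n0 n1 (by rw [P_xor]; exact dvd_add dvd_rfl h)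
  have r1 := rel a (T.map fun p => pos p.1 p.2)
  have r2 := rel b (T.map fun p => pos p.1 p.2)
  rw [t1, P_zero, add_zero] at r1
  rw [t2, P_zero, add_zero] at r2
  have hc := h1.1.coprime_iff_not_dvd.2 hn
  refine ⟨fun e => hn (e ▸ dvd_rfl), ?_⟩
  rintro ⟨C, ⟨hC, -⟩, -, h, -⟩
  obtain ⟨⟨A, p⟩, ⟨hA, hw⟩, -⟩ := h (fun a b => if a = 0 ∧ b = 0 then 1 else 0) (by decide)
  obtain ⟨s, -, hs, hf⟩ := hC A hA
  rw [gen_iff] at hs
  have k : ∀ N, IsLeast {e | 1 ≤ e ∧ P a ∣ X ^ e - 1} N → IsLeast {e | 1 ≤ e ∧ P b ∣ X ^ e - 1} N →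
      ∀ n, s (n + N) = s n := fun N e1 e2 => kills_per.1 (hs.dvd (hc.mul_dvd e1.1.2 e2.1.2))
  replace k := k _ h1.2.2.2.1 h2.2.2.2.1
  obtain rfl := (fold_iff k).1 hf
  obtain ⟨n, -, rfl⟩ := surj p
  have := (hs.dvd (hc.mul_dvd r1 r2)).list n
  dsimp only at hw
  simp only [List.map_map, Function.comp_def, ← win 3 (2 * 4) A n, hw] at this
  exact absurd this (by decide)

theorem n1 : P 4891 ≠ P 5227 ∧ ¬ FoldsTo (P 4891 * P 5227) 5 117 3 (2 * 4) :=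
  neg g1 g2 (by decide +kernel) (by decide +kernel) (by decide +kernel) (by decide +kernel)

theorem result : ∃ (r₁ r₂ n₁ n₂ : ℕ) (f₁ f₂ : (ZMod 2)[X]), Nat.Coprime r₁ r₂ ∧ n₁ < r₁ ∧ r₁ < 2 * n₁ ∧
    f₁ ≠ f₂ ∧ Good f₁ r₁ r₂ n₁ n₂ ∧ Good f₂ r₁ r₂ n₁ n₂ ∧ ¬ FoldsTo (f₁ * f₂) r₁ r₂ n₁ (2 * n₂) := by
  have h1 := n1
  have h2 := g1
  have h3 := g2
  generalize P 4891 = f at *
  generalize P 5227 = g at *
  exact ⟨5, 117, 3, 4, f, g, by norm_num, by norm_num, by norm_num, h1.1, h2, h3, h1.2⟩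

end Pool.Agent.Results.MP_2c8f22_co.Counter
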